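import Pool.Agent.Helper19.HO.Defs
import Mathlib.Analysis.Calculus.BumpFunction.InnerProduct

/-!
# Project HO, piece HO-22: the derivative of the homogeneous extension and the covariant derivative
-/

open MeasureTheory Set Metric Filter Module
open scoped NNReal Topology RealInnerProductSpace ENNReal Real ContDiff Manifold

namespace Pool.Agent.Helper19.HO

section P22

variable {E : Type*} [NormedAddCommGroup E] [InnerProductSpace ℝ E]

private lemma P22_norm_normalize {y : E} (hy : y ≠ 0) : ‖‖y‖⁻¹ • y‖ = 1 := by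
  rw [norm_smul, norm_inv, norm_norm, inv_mul_cancel₀ (norm_ne_zero_iff.2 hy)]

private lemma P22_radExt_of_ne (V : sphere (0 : E) 1 → E) {y : E} (hy : y ≠ 0) :
    radExt V y = V ⟨‖y‖⁻¹ • y, mem_sphere_zero_iff_norm.2 (P22_norm_normalize hy)⟩ := dif_neg hy

private lemma P22_radExt_coe (V : sphere (0 : E) 1 → E) (x : sphere (0 : E) 1) :
    radExt V x = V x := by
  have hx : ‖(x : E)‖ = 1 := mem_sphere_zero_iff_norm.1 x.2
  have h0 : (x : E) ≠ 0 := by
    intro h
    rw [h, norm_zero] at hx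
    exact zero_ne_one hx
  rw [P22_radExt_of_ne V h0]
  congr 1
  apply Subtype.ext
  simp [hx]

private lemma P22_radExt_smul (V : sphere (0 : E) 1 → E) (x : E) {t : ℝ} (ht : 0 < t) :
    radExt V (t • x) = radExt V x := by
  by_cases hx : x = 0
  · subst hx; rw [smul_zero]
  · rw [P22_radExt_of_ne V hx, P22_radExt_of_ne V (smul_ne_zero ht.ne' hx)]
    congr 2
    rw [norm_smul, Real.norm_eq_abs, abs_of_pos ht, smul_smul]
    congr 1
    field_simp

variable [FiniteDimensional ℝ E]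

private lemma P22_contDiffAt {k : ℕ} [Fact (finrank ℝ E = k + 1)] {V : sphere (0 : E) 1 → E}
    (hV : ContMDiff (𝓡 k) 𝓘(ℝ, E) 1 V) {y0 : E} (hy0 : y0 ≠ 0) :
    ContDiffAt ℝ 1 (radExt V) y0 := by
  have hn0 : 0 < ‖y0‖ := norm_pos_iff.2 hy0
  let χ : ContDiffBump y0 := ⟨‖y0‖ / 4, ‖y0‖ / 2, by positivity, by linarith⟩
  set F : E → E := fun y => y0 + χ y • (y - y0) with hF
  have hFc : ContDiff ℝ 1 F :=
    contDiff_const.add ((χ.contDiff).smul (contDiff_id.sub contDiff_const))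
  have hF0 : ∀ y, F y ≠ 0 := by
    intro y h
    have h1 : ‖F y - y0‖ < ‖y0‖ := by
      rw [hF]
      simp only [add_sub_cancel_left, norm_smul, Real.norm_eq_abs, abs_of_nonneg χ.nonneg]
      by_cases hy : y ∈ ball y0 (‖y0‖ / 2)
      · rw [mem_ball_iff_norm] at hy
        calc χ y * ‖y - y0‖ ≤ 1 * ‖y - y0‖ := by
              exact mul_le_mul_of_nonneg_right χ.le_one (norm_nonneg _)
          _ < ‖y0‖ := by linarith
      · have : χ y = 0 := χ.zero_of_le_dist (by
          rw [mem_ball, not_lt] at hy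
          exact hy)
        rw [this, zero_mul]
        exact hn0
    rw [h, zero_sub, norm_neg] at h1
    exact lt_irrefl _ h1
  set N : E → E := fun y => ‖F y‖⁻¹ • F y with hN
  have hNc : ContDiff ℝ 1 N :=
    (ContDiff.inv (hFc.norm ℝ hF0) (fun y => norm_ne_zero_iff.2 (hF0 y))).smul hFc
  have hNs : ∀ y, N y ∈ sphere (0 : E) 1 := fun y => by
    rw [mem_sphere_zero_iff_norm]
    exact P22_norm_normalize (hF0 y)
  have h2 : ContMDiff 𝓘(ℝ, E) (𝓡 k) 1 (Set.codRestrict N (sphere 0 1) hNs) :=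
    (contMDiff_iff_contDiff.2 hNc).codRestrict_sphere hNs
  have h3 : ContDiff ℝ 1 (V ∘ Set.codRestrict N (sphere 0 1) hNs) :=
    contMDiff_iff_contDiff.1 (hV.comp h2)
  refine h3.contDiffAt.congr_of_eventuallyEq ?_
  filter_upwards [ball_mem_nhds y0 (by positivity : 0 < ‖y0‖ / 4)] with y hy
  have h4 : χ y = 1 := χ.one_of_mem_closedBall (ball_subset_closedBall hy)
  have h5 : F y = y := by simp [hF, h4]
  have hy1 : y ≠ 0 := by rw [← h5]; exact hF0 y
  rw [P22_radExt_of_ne V hy1]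
  simp only [Function.comp_apply]
  congr 1
  apply Subtype.ext
  rw [Set.val_codRestrict_apply]
  simp only [hN, h5]

omit [FiniteDimensional ℝ E] in
private lemma P22_ne (x : sphere (0 : E) 1) : (x : E) ≠ 0 := by
  intro h
  have hx : ‖(x : E)‖ = 1 := mem_sphere_zero_iff_norm.1 x.2
  rw [h, norm_zero] at hx
  exact zero_ne_one hx

omit [FiniteDimensional ℝ E] in
private lemma P22_norm (x : sphere (0 : E) 1) : ‖(x : E)‖ = 1 := mem_sphere_zero_iff_norm.1 x.2

private lemma P22_hasFDerivAt {k : ℕ} [Fact (finrank ℝ E = k + 1)] {W : sphere (0 : E) 1 → E}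
    (hW : ContMDiff (𝓡 k) 𝓘(ℝ, E) 1 W) (x : sphere (0 : E) 1) :
    HasFDerivAt (radExt W) (fderiv ℝ (radExt W) (x : E)) (x : E) :=
  ((P22_contDiffAt hW (P22_ne x)).differentiableAt (by norm_num)).hasFDerivAt

private lemma P22_fderiv_self {k : ℕ} [Fact (finrank ℝ E = k + 1)] {W : sphere (0 : E) 1 → E}
    (hW : ContMDiff (𝓡 k) 𝓘(ℝ, E) 1 W) (x : sphere (0 : E) 1) :
    fderiv ℝ (radExt W) (x : E) (x : E) = 0 := by
  have h1 : HasDerivAt (fun t : ℝ => t • (x : E)) ((1 : ℝ) • (x : E)) 1 :=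
    (hasDerivAt_id (1 : ℝ)).smul_const (x : E)
  have h2 : HasFDerivAt (radExt W) (fderiv ℝ (radExt W) (x : E)) ((fun t : ℝ => t • (x : E)) 1) := by
    simpa using P22_hasFDerivAt hW x
  have h3 := h2.comp_hasDerivAt (1 : ℝ) h1
  have h4 : HasDerivAt (radExt W ∘ fun t : ℝ => t • (x : E)) 0 1 := by
    refine (hasDerivAt_const (1 : ℝ) (radExt W (x : E))).congr_of_eventuallyEq ?_
    filter_upwards [lt_mem_nhds (zero_lt_one : (0 : ℝ) < 1)] with t ht
    exact P22_radExt_smul W x ht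
  have h5 := h3.unique h4
  simpa using h5

omit [FiniteDimensional ℝ E] in
private lemma P22_inner_eq_zero {W : sphere (0 : E) 1 → E}
    (ht : ∀ x : sphere (0 : E) 1, ⟪(x : E), W x⟫ = 0) (y : E) : ⟪y, radExt W y⟫ = 0 := by
  by_cases hy : y = 0
  · subst hy; rw [inner_zero_left]
  · have h := ht ⟨‖y‖⁻¹ • y, mem_sphere_zero_iff_norm.2 (P22_norm_normalize hy)⟩
    rw [P22_radExt_of_ne W hy]
    rw [real_inner_smul_left] at h
    rcases mul_eq_zero.1 h with h | h
    · exact absurd (inv_eq_zero.1 h) (norm_ne_zero_iff.2 hy)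
    · exact h

private lemma P22_inner_fderiv {k : ℕ} [Fact (finrank ℝ E = k + 1)] {W : sphere (0 : E) 1 → E}
    (hW : ContMDiff (𝓡 k) 𝓘(ℝ, E) 1 W) (ht : ∀ x : sphere (0 : E) 1, ⟪(x : E), W x⟫ = 0)
    (x : sphere (0 : E) 1) (δ : E) :
    ⟪(x : E), fderiv ℝ (radExt W) (x : E) δ⟫ = -⟪W x, δ⟫ := by
  have h1 : HasFDerivAt (fun y : E => ⟪y, radExt W y⟫) _ (x : E) :=
    (hasFDerivAt_id (x : E)).inner ℝ (P22_hasFDerivAt hW x)
  have h2 : HasFDerivAt (fun y : E => ⟪y, radExt W y⟫) (0 : E →L[ℝ] ℝ) (x : E) := by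
    have : (fun y : E => ⟪y, radExt W y⟫) = fun _ => (0 : ℝ) := funext (P22_inner_eq_zero ht)
    rw [this]
    exact hasFDerivAt_const _ _
  have h3 := congrArg (fun L : E →L[ℝ] ℝ => L δ) (h1.unique h2)
  simp only [ContinuousLinearMap.comp_apply, ContinuousLinearMap.prod_apply, fderivInnerCLM_apply,
    id_eq, zero_apply, ContinuousLinearMap.id_apply, P22_radExt_coe] at h3
  rw [real_inner_comm (W x) δ] at h3
  linarith

theorem fderiv_hext_apply {k : ℕ} [Fact (finrank ℝ E = k + 1)] {W : sphere (0 : E) 1 → E}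
    (hW : ContMDiff (𝓡 k) 𝓘(ℝ, E) 1 W) (ht : ∀ x : sphere (0 : E) 1, ⟪(x : E), W x⟫ = 0)
    (x : sphere (0 : E) 1) (δ : E) :
    fderiv ℝ (hext W) x δ = covDeriv W x δ + ⟪(x : E), δ⟫ • W x - ⟪W x, δ⟫ • (x : E) := by
  have hx := P22_norm x
  have h1 : HasFDerivAt (fun y : E => ‖y‖) (innerSL ℝ (x : E)) (x : E) := by
    have h := ((hasStrictFDerivAt_norm_sq (x : E)).hasFDerivAt).sqrt (by simp [hx])
    have h' : (fun y : E => √(‖y‖ ^ 2)) = fun y : E => ‖y‖ := by
      funext y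
      exact Real.sqrt_sq (norm_nonneg y)
    rw [h'] at h
    convert h using 1
    ext δ
    simp [hx]
  have h2 : HasFDerivAt (hext W) _ (x : E) := h1.smul (P22_hasFDerivAt hW x)
  rw [h2.fderiv]
  simp only [covDeriv, add_apply,
    sub_apply, ContinuousLinearMap.smulRight_apply,
    ContinuousLinearMap.comp_apply, innerSL_apply_apply, P22_radExt_coe, hx, one_smul,
    P22_inner_fderiv hW ht x δ]
  rw [neg_smul]
  abel

theorem covDeriv_self {k : ℕ} [Fact (finrank ℝ E = k + 1)] {W : sphere (0 : E) 1 → E}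
    (hW : ContMDiff (𝓡 k) 𝓘(ℝ, E) 1 W) (x : sphere (0 : E) 1) : covDeriv W x (x : E) = 0 := by
  simp only [covDeriv, sub_apply, ContinuousLinearMap.smulRight_apply,
    ContinuousLinearMap.comp_apply, P22_fderiv_self hW x, map_zero, zero_smul, sub_zero]

omit [FiniteDimensional ℝ E] in
theorem inner_covDeriv (W : sphere (0 : E) 1 → E) (x : sphere (0 : E) 1) (δ : E) :
    ⟪(x : E), covDeriv W x δ⟫ = 0 := by
  have hx : ‖(x : E)‖ = 1 := mem_sphere_zero_iff_norm.1 x.2
  simp only [covDeriv, sub_apply, ContinuousLinearMap.smulRight_apply,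
    ContinuousLinearMap.comp_apply, innerSL_apply_apply, inner_sub_right, real_inner_smul_right,
    real_inner_self_eq_norm_sq, hx]
  ring

theorem inner_field_covDeriv {k : ℕ} [Fact (finrank ℝ E = k + 1)] {W : sphere (0 : E) 1 → E}
    (hW : ContMDiff (𝓡 k) 𝓘(ℝ, E) 1 W) (ht : ∀ x : sphere (0 : E) 1, ⟪(x : E), W x⟫ = 0) {r : ℝ}
    (hn : ∀ x, ‖W x‖ = r) (x : sphere (0 : E) 1) (δ : E) : ⟪W x, covDeriv W x δ⟫ = 0 := by
  have h1 : HasFDerivAt (fun y : E => ⟪radExt W y, radExt W y⟫) _ (x : E) :=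
    (P22_hasFDerivAt hW x).inner ℝ (P22_hasFDerivAt hW x)
  have h2 : HasFDerivAt (fun y : E => ⟪radExt W y, radExt W y⟫) (0 : E →L[ℝ] ℝ) (x : E) := by
    refine (hasFDerivAt_const (r ^ 2) (x : E)).congr_of_eventuallyEq ?_
    filter_upwards [isOpen_compl_singleton.mem_nhds (P22_ne x)] with y hy
    rw [P22_radExt_of_ne W hy, real_inner_self_eq_norm_sq, hn]
  have h3 := congrArg (fun L : E →L[ℝ] ℝ => L δ) (h1.unique h2)
  simp only [ContinuousLinearMap.comp_apply, ContinuousLinearMap.prod_apply, fderivInnerCLM_apply,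
    zero_apply, P22_radExt_coe] at h3
  rw [real_inner_comm (W x)] at h3
  have h4 : ⟪W x, fderiv ℝ (radExt W) (x : E) δ⟫ = 0 := by linarith
  simp only [covDeriv, sub_apply, ContinuousLinearMap.smulRight_apply,
    ContinuousLinearMap.comp_apply, innerSL_apply_apply, inner_sub_right, real_inner_smul_right,
    h4]
  rw [real_inner_comm (x : E) (W x), ht]
  ring

end P22

end Pool.Agent.Helper19.HO
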